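import Pool.Agent.H15.G.R_seed8.TH105.NU.Defs
import Pool.Agent.H15.G.R_seed8.TH105.NU.F1

/-! The critical degrees of vectors of two consecutive multiplicities. -/

set_option autoImplicit false

namespace Pool.Agent.TH105.NU

open Finset Pool.Agent.TH176.Nag Pool.Agent.TH603.Sur Pool.Agent.TH603.Cut Pool.Agent.TH663.N13
  Pool.Agent.TH105.N13 Pool.Agent.TH641.UM

/-- sums over a vector of two values -/
theorem sum_near {M : Type*} [AddCommMonoid M] {n m : ℕ} {w : Fin n → ℕ} (hw : ∀ i, w i = m ∨ w i = m + 1) :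
    ∃ s t : ℕ, s + t = n ∧ ∀ f : ℕ → M, ∑ i, f (w i) = s • f m + t • f (m + 1) := by
  classical
  refine ⟨(univ.filter fun i => ¬ w i = m + 1).card, (univ.filter fun i => w i = m + 1).card, ?_, ?_⟩
  · have h := card_filter_add_card_filter_not (s := (univ : Finset (Fin n))) (fun i => w i = m + 1)
    rw [card_univ, Fintype.card_fin] at h
    omega
  · intro f
    rw [← sum_filter_add_sum_filter_not univ (fun i => w i = m + 1), add_comm]
    congr 1
    · rw [← sum_const]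
      refine sum_congr rfl fun i hi => ?_
      rw [mem_filter] at hi
      rcases hw i with h | h
      · rw [h]
      · exact absurd h hi.2
    · rw [← sum_const]
      refine sum_congr rfl fun i hi => ?_
      rw [mem_filter] at hi
      rw [hi.2]

/-- the numbers of the two values -/
theorem near_data {n m : ℕ} {w : Fin n → ℕ} (hw : ∀ i, w i = m ∨ w i = m + 1) :
    ∃ s t : ℕ, s + t = n ∧ ms w = s • {m} + t • {m + 1} ∧ (∑ i, (w i : ℝ)) = (n : ℝ) * m + t ∧
      Pool.Agent.TH603.Sur.cond w = s * (m + 1).choose 2 + t * (m + 2).choose 2 := by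
  classical
  refine ⟨(univ.filter fun i => ¬ w i = m + 1).card, (univ.filter fun i => w i = m + 1).card, ?_, ?_⟩
  · have h := card_filter_add_card_filter_not (s := (univ : Finset (Fin n))) (fun i => w i = m + 1)
    rw [card_univ, Fintype.card_fin] at h
    omega
  · have hsum : ∀ {M : Type} [AddCommMonoid M] (f : ℕ → M), ∑ i, f (w i) =
        (univ.filter fun i => ¬ w i = m + 1).card • f m +
          (univ.filter fun i => w i = m + 1).card • f (m + 1) := by
      intro M _ f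
      rw [← sum_filter_add_sum_filter_not univ (fun i => w i = m + 1), add_comm]
      congr 1
      · rw [← sum_const]
        refine sum_congr rfl fun i hi => ?_
        rw [mem_filter] at hi
        rcases hw i with h | h
        · rw [h]
        · exact absurd h hi.2
      · rw [← sum_const]
        refine sum_congr rfl fun i hi => ?_
        rw [mem_filter] at hi
        rw [hi.2]
    have hcard : ((univ.filter fun i => ¬ w i = m + 1).card : ℝ) +
        ((univ.filter fun i => w i = m + 1).card : ℝ) = n := by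
      have h := card_filter_add_card_filter_not (s := (univ : Finset (Fin n))) (fun i => w i = m + 1)
      rw [card_univ, Fintype.card_fin] at h
      have : ((univ.filter fun i => w i = m + 1).card : ℝ) +
        ((univ.filter fun i => ¬ w i = m + 1).card : ℝ) = n := by exact_mod_cast h
      linarith
    refine ⟨?_, ?_, ?_⟩
    · unfold ms
      exact hsum (fun a => ({a} : Multiset ℕ))
    · rw [hsum (fun a => (a : ℝ)), nsmul_eq_mul, nsmul_eq_mul, ← hcard]
      push_cast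
      ring
    · unfold Pool.Agent.TH603.Sur.cond
      rw [hsum (fun a => (a + 1).choose 2)]
      simp only [smul_eq_mul]

theorem noise6 {lam : ℝ} {k : ℕ}
    (h : ∀ (beta : ℝ) (K : ℕ), K ≤ 3 * k →
      |∑ i ∈ range K, (Int.fract (beta + lam * i) - 1 / 2)| ≤ 1 / 64 * k) : Noise lam k := by
  intro β K hK
  have hk0 : (0 : ℝ) ≤ k := Nat.cast_nonneg k
  rcases Nat.lt_or_ge K (3 * k) with h1 | h1
  · have := h β K h1.le
    linarith
  · obtain ⟨K2, rfl⟩ := Nat.exists_eq_add_of_le h1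
    have h2 := h β (3 * k) le_rfl
    have h3 := h (β + lam * (3 * k : ℕ)) K2 (by omega)
    rw [sum_range_add]
    have e : ∑ i ∈ range K2, (Int.fract (β + lam * ((3 * k + i : ℕ) : ℝ)) - 1 / 2) =
        ∑ i ∈ range K2, (Int.fract (β + lam * (3 * k : ℕ) + lam * i) - 1 / 2) := by
      refine sum_congr rfl fun i _ => ?_
      congr 2
      push_cast
      ring
    rw [e]
    have h4 := abs_add_le (∑ i ∈ range (3 * k), (Int.fract (β + lam * i) - 1 / 2))
      (∑ i ∈ range K2, (Int.fract (β + lam * (3 * k : ℕ) + lam * i) - 1 / 2))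
    linarith

theorem exists_pow' (A n : ℕ) (hn : 160 * A ^ 2 ≤ n) (hn0 : 40 ≤ n) :
    ∃ a : ℕ, A < 2 ^ a ∧ 40 * (2 ^ a) ^ 2 ≤ n ∧ n < 160 * (2 ^ a) ^ 2 := by
  refine ⟨Nat.log 4 (n / 40), ?_⟩
  have h1 : 4 ^ Nat.log 4 (n / 40) ≤ n / 40 := Nat.pow_log_le_self 4 (by omega)
  have h2 : n / 40 < 4 ^ (Nat.log 4 (n / 40) + 1) := Nat.lt_pow_succ_log_self (by norm_num) _
  have e : (2 ^ Nat.log 4 (n / 40)) ^ 2 = 4 ^ Nat.log 4 (n / 40) := by
    rw [← pow_mul, mul_comm, pow_mul]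
    norm_num
  rw [pow_succ] at h2
  rw [e]
  refine ⟨?_, by omega, by omega⟩
  have h3 : 160 * A ^ 2 < 160 * 4 ^ Nat.log 4 (n / 40) := by omega
  rw [← e] at h3
  exact lt_of_pow_lt_pow_left₀ 2 (by positivity) (by omega)

/-- the geometric parameters exist -/
theorem exists_geo : ∃ k0 : ℕ, ∀ k : ℕ, k0 ≤ k → ∀ b : ℕ, k = 2 ^ (b + 1) → ∀ (x Q : ℝ), 0 < Q →
    ∃ (v u w : ℤ) (τ κ : ℝ), 0 < κ ∧ κ * Q ≤ 1 ∧ GeoN k v u w τ x κ := by
  obtain ⟨k0, hk00, hk0⟩ := exists_v (1 / 64) (by norm_num)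
  refine ⟨k0, fun k hkk b hb x Q hQ => ?_⟩
  obtain ⟨y, hyirr, hy1, hy2⟩ := exists_irrational_btwn
    (show 3 * x < 3 * x + 1 / Q by
      have := one_div_pos.2 hQ
      linarith)
  obtain ⟨v, hv, hv1, hv2, hv3⟩ := hk0 k hkk (3 * x + (y - 3 * x) - 9 * k) 0
  have hk : 0 < k := by rw [hb]; positivity
  have hkR : (k : ℝ) ≠ 0 := by positivity
  have hcop : IsCoprime (k : ℤ) v := by
    rw [hb]
    push_cast
    refine IsCoprime.pow_left ?_
    obtain ⟨q, hq⟩ := hv
    exact ⟨-q, 1, by rw [hq]; ring⟩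
  obtain ⟨u, w, huw⟩ := hcop
  obtain ⟨lam, hlam⟩ : ∃ lam : ℝ, lam = (3 * x + (y - 3 * x) - 9 * k - v) / k := ⟨_, rfl⟩
  rw [← hlam] at hv1 hv2
  have hlk : lam * k = 3 * x + (y - 3 * x) - 9 * k - v := by
    rw [hlam, div_mul_cancel₀ _ hkR]
  have hlt : (((6 : ℤ) : ℝ) - 3 * (2 - lam / 3)) = lam := by push_cast; ring
  refine ⟨v, u, w, lam / 3, y - 3 * x, by linarith, ?_, ?_⟩
  · have h1 : (y - 3 * x) * Q ≤ 1 / Q * Q := mul_le_mul_of_nonneg_right (by linarith) hQ.le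
    rwa [one_div, inv_mul_cancel₀ hQ.ne'] at h1
  · refine ⟨by linear_combination huw, by simp only [Int.cast_zero] at hv1; linarith,
      by simp only [Int.cast_zero] at hv2; linarith, ?_, by rw [hlt, hlk], ?_⟩
    · have e : lam / 3 = (y - ((9 * k + v : ℤ) : ℝ)) / ((3 * k : ℤ) : ℝ) := by
        push_cast
        rw [div_eq_div_iff (by norm_num) (by positivity)]
        linear_combination 3 * hlk
      rw [e]
      exact (hyirr.sub_intCast _).div_intCast (by positivity)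
    · rw [hlt]
      refine noise6 fun β K hK => ?_
      rw [hlam]
      exact hv3 β K hK

/-- **the critical degrees** -/
theorem critN : ∃ N1 : ℕ, ∀ n : ℕ, N1 ≤ n → ∀ m : ℕ, (n : ℝ) - 6 * √(n : ℝ) + 10 ≤ m →
    CritN (1 / 52) n m := by
  obtain ⟨k0, hk0⟩ := exists_geo
  refine ⟨160 * (k0 + 64) ^ 2, fun n hn m hm w hw d hd => ?_⟩
  obtain ⟨a, ha1, ha2, ha3⟩ := exists_pow' (k0 + 64) n hn (by
    have : 1 ≤ (k0 + 64) ^ 2 := Nat.one_le_pow _ _ (by omega)
    omega)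
  obtain ⟨k, hk⟩ : ∃ k : ℕ, k = 2 ^ a := ⟨_, rfl⟩
  rw [← hk] at ha1 ha2 ha3
  have ha : a ≠ 0 := by
    rintro rfl
    rw [pow_zero] at hk
    omega
  obtain ⟨b, rfl⟩ := Nat.exists_eq_succ_of_ne_zero ha
  obtain ⟨k', hk'⟩ : ∃ k' : ℕ, k = 2 * k' := ⟨2 ^ b, by rw [hk, pow_succ]; ring⟩
  obtain ⟨s, t, hst, hms, hsum, hcond⟩ := near_data hw
  obtain ⟨x, hx⟩ : ∃ x : ℝ, x = √(n : ℝ) := ⟨_, rfl⟩
  have hx0 : 0 ≤ x := by rw [hx]; exact Real.sqrt_nonneg _
  have hxsq : x ^ 2 = n := by rw [hx]; exact Real.sq_sqrt (Nat.cast_nonneg n)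
  have hkR : (64 : ℝ) ≤ k := by exact_mod_cast (by omega : 64 ≤ k)
  have hx1 : 6.32 * (k : ℝ) ≤ x := by
    have h1 : (40 : ℝ) * k ^ 2 ≤ n := by exact_mod_cast ha2
    rw [← hxsq] at h1
    refine le_of_sq_le_sq ?_ hx0
    nlinarith
  have hx2 : x ≤ 12.65 * k := by
    have h1 : (n : ℝ) < 160 * k ^ 2 := by exact_mod_cast ha3
    rw [← hxsq] at h1
    refine le_of_sq_le_sq ?_ (by positivity)
    nlinarith
  rw [← hx] at hm hd
  have h3k : 3 * k ≤ 2 * m := by
    have h1 : 3 * (k : ℝ) ≤ 2 * m := by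
      rw [← hxsq] at hm
      nlinarith
    exact_mod_cast h1
  have hQ0 : 0 < (d : ℝ) + (x + 1) * ((m + 1) + 1) + 2 := by positivity
  obtain ⟨v, u, w', τ, κ, hκ, hκQ, g⟩ := hk0 k (by omega) b hk x _ hQ0
  have hS : SetN n k m d t x κ :=
    ⟨hx, by omega, hx1, hx2, hκ, hκQ, by omega, by rw [hsum] at hd; exact hd⟩
  -- the bubble
  have hk2 : k ^ 2 = 4 * k' ^ 2 := by rw [hk']; ring
  obtain ⟨z, a0, b0, a', b', hz, hab, hb0, hcase, hs', ht'⟩ : ∃ z a0 b0 a' b' : ℕ, z ≤ 2 ∧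
      a0 + b0 = k ^ 2 ∧ b0 = 2 * z * k' ^ 2 ∧
      ((z = 0 ∧ 4 * t ≤ n) ∨ (z = 1 ∧ n ≤ 4 * t ∧ 4 * t ≤ 3 * n) ∨ (z = 2 ∧ 3 * n ≤ 4 * t)) ∧
      a0 + a' = s ∧ b0 + b' = t := by
    rcases Nat.lt_or_ge n (4 * t) with h1 | h1
    · rcases Nat.lt_or_ge (3 * n) (4 * t) with h2 | h2
      · exact ⟨2, 0, k ^ 2, s, t - k ^ 2, le_rfl, by omega, by omega, Or.inr (Or.inr ⟨rfl, h2.le⟩),
          by omega, by omega⟩
      · exact ⟨1, 2 * k' ^ 2, 2 * k' ^ 2, s - 2 * k' ^ 2, t - 2 * k' ^ 2, by omega, by omega, by omega,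
          Or.inr (Or.inl ⟨rfl, h1.le, h2⟩), by omega, by omega⟩
    · exact ⟨0, k ^ 2, 0, s - k ^ 2, t, by omega, by omega, by omega, Or.inl ⟨rfl, h1⟩, by omega,
        by omega⟩
  obtain ⟨D, hD⟩ : ∃ D : ℕ, D + 1 = k * m + (1 + z) * k' := by
    refine ⟨k * m + (1 + z) * k' - 1, ?_⟩
    have : k' ≤ (1 + z) * k' := by nlinarith
    omega
  have hN : NumN n k k' m z t a' b' D := ⟨hk', hz, hD, by omega, by omega, hcase⟩
  have F1 := F1N hN hS g
  have F2 := F2N hN hS g hm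
  have key : ∀ c : ℕ, (d + 2).choose 2 ≤ Pool.Agent.TH603.Sur.cond w + c →
      EmpM (ms w + c • {1}) (TZ d) := by
    intro c hc
    have h := match2 (a := a0) (b := b0) (by omega) hk' h3k hz hab hb0 hD F1 F2 c (by
      rw [hs', ht', ← hcond]; exact hc)
    rw [hs', ht', ← hms] at h
    exact h
  constructor
  · intro h
    have h1 := key 0 (by omega)
    rw [zero_smul, add_zero] at h1
    exact (EmpM_ms w _).1 h1
  · intro h
    obtain ⟨c, hc⟩ := Nat.exists_eq_add_of_le h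
    have h1 := key c (by omega)
    rw [← ms_fin, ← ms_sum] at h1
    exact Sur_of_ones ((EmpM_ms _ _).1 h1) (by omega)

end Pool.Agent.TH105.NU
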