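import Pool.Agent.H15.G.R_seed8.TH641.UM.PSide
import Pool.Agent.H15.G.R_seed8.TH641.UM.MS

/-! The bubble: `k ^ 2` points of multiplicities `m`, `m + 1`. -/

set_option autoImplicit false

namespace Pool.Agent.TH105.NU

open Finset Pool.Agent.TH176.Nag Pool.Agent.TH603.Sur Pool.Agent.TH603.Cut Pool.Agent.TH641.NW
  Pool.Agent.TH641.UM

/-- two values -/
def two (a b m : ℕ) : Fin a ⊕ Fin b → ℕ := Sum.elim (fun _ => m) (fun _ => m + 1)

theorem two_sum (a b m : ℕ) : ∑ i, two a b m i = a * m + b * (m + 1) := by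
  simp [two, Fintype.sum_sum_type]

theorem two_card (a b : ℕ) : Fintype.card (Fin a ⊕ Fin b) = a + b := by simp

theorem two_cond (a b m : ℕ) : Pool.Agent.TH603.Sur.cond (two a b m) =
    a * (m + 1).choose 2 + b * (m + 2).choose 2 := by
  simp [Pool.Agent.TH603.Sur.cond, two, Fintype.sum_sum_type]

theorem two_ms (a b m : ℕ) : ms (two a b m) = a • {m} + b • {m + 1} := by
  unfold two
  rw [ms_sum, ms_fin, ms_fin]

theorem two_le (a b m : ℕ) (i : Fin a ⊕ Fin b) : two a b m i ≤ m + 1 := by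
  rcases i with i | i <;> simp [two]

theorem two_max (a b m : ℕ) : (∑ i, max (two a b m i) m : ℕ) = a * m + b * (m + 1) := by
  rw [← two_sum]
  refine sum_congr rfl fun i _ => ?_
  rcases i with i | i <;> simp [two]

/-- independence in the degree `k m + (1 + z) k' - 1` -/
theorem Sur_P2 {k k' m z a b : ℕ} (hk : 8 ≤ k) (hk' : k = 2 * k') (hab : a + b = k ^ 2)
    (hb : b = 2 * z * k' ^ 2) :
    Sur (two a b m) (TZ (k * m + (1 + z) * k' - 1)) := by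
  have hkR : (8 : ℝ) ≤ k := by exact_mod_cast hk
  have hk'R : (k : ℝ) = 2 * k' := by exact_mod_cast hk'
  have hk'1 : 1 ≤ k' := by omega
  have h0 : 1 ≤ k * m + (1 + z) * k' := by nlinarith
  have hd : ((k * m + (1 + z) * k' - 1 : ℕ) : ℝ) = k * m + (1 + z) * (k / 2) - 1 := by
    rw [Nat.cast_sub h0]
    push_cast
    rw [hk'R]
    ring
  have haR : (a : ℝ) = k ^ 2 - b := by
    have : (a : ℝ) + b = k ^ 2 := by exact_mod_cast hab
    linarith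
  have hbR : (b : ℝ) = z * k ^ 2 / 2 := by
    rw [hb, hk'R]
    push_cast
    ring
  refine Sur_win2 (n := k ^ 2) (b := m) keyS (by nlinarith) (by rw [two_card, hab]) (two_le a b m) ?_
  rw [sqrt_sq_nat, hd, two_max]
  push_cast
  rw [haR, hbR]
  nlinarith

theorem pnum0 {k m s0 : ℝ} (h1 : k / 12 ≤ s0) (h2 : s0 < k / 12 + 1) (hm : 3 * k ≤ 2 * m) (hk : 14 ≤ k)
    (h5 : k / 12 * m ≤ s0 * m) :
    (3 * (k * m + (1 + ((0 : ℕ) : ℝ)) * (k / 2) - 2) - 3 * k * m) ^ 2 / 18 +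
      11 / 18 * (3 * (k * m + (1 + ((0 : ℕ) : ℝ)) * (k / 2) - 2) - 3 * k * m) + 17 / 8 + (k ^ 2 - s0) * m ≤
      k ^ 2 * m + ((0 : ℕ) : ℝ) * k ^ 2 / 2 := by
  have h6 : k / 12 * (3 / 2 * k) ≤ k / 12 * m := mul_le_mul_of_nonneg_left (by linarith) (by linarith)
  have e : (3 * (k * m + (1 + ((0 : ℕ) : ℝ)) * (k / 2) - 2) - 3 * k * m) = 3 / 2 * k - 6 := by
    push_cast; ring
  rw [e]
  push_cast
  nlinarith

theorem pnum1 {k m s0 : ℝ} (h1 : k / 12 ≤ s0) (h2 : s0 < k / 12 + 1) (hm : 3 * k ≤ 2 * m) (hk : 14 ≤ k)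
    (h5 : k / 12 * m ≤ s0 * m) :
    (3 * (k * m + (1 + ((1 : ℕ) : ℝ)) * (k / 2) - 2) - 3 * k * m) ^ 2 / 18 +
      11 / 18 * (3 * (k * m + (1 + ((1 : ℕ) : ℝ)) * (k / 2) - 2) - 3 * k * m) + 17 / 8 + (k ^ 2 - s0) * m ≤
      k ^ 2 * m + ((1 : ℕ) : ℝ) * k ^ 2 / 2 := by
  have h6 : k / 12 * (3 / 2 * k) ≤ k / 12 * m := mul_le_mul_of_nonneg_left (by linarith) (by linarith)
  have e : (3 * (k * m + (1 + ((1 : ℕ) : ℝ)) * (k / 2) - 2) - 3 * k * m) = 3 * k - 6 := by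
    push_cast; ring
  rw [e]
  push_cast
  nlinarith

theorem pnum2 {k m s0 : ℝ} (h1 : k / 12 ≤ s0) (h2 : s0 < k / 12 + 1) (hm : 3 * k ≤ 2 * m) (hk : 14 ≤ k)
    (h5 : k / 12 * m ≤ s0 * m) :
    (3 * (k * m + (1 + (2 : ℝ)) * (k / 2) - 2) - 3 * k * (m + 1)) ^ 2 / 18 +
      11 / 18 * (3 * (k * m + (1 + (2 : ℝ)) * (k / 2) - 2) - 3 * k * (m + 1)) + 17 / 8 +
      (k ^ 2 - s0) * (m + 1) ≤ k ^ 2 * m + (2 : ℝ) * k ^ 2 / 2 := by
  have h6 : k / 12 * (3 / 2 * k) ≤ k / 12 * m := mul_le_mul_of_nonneg_left (by linarith) (by linarith)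
  have e : (3 * (k * m + (1 + (2 : ℝ)) * (k / 2) - 2) - 3 * k * (m + 1)) = 3 / 2 * k - 6 := by
    ring
  rw [e]
  nlinarith

/-- emptiness one degree lower -/
theorem Emp_P2 {k k' m z a b : ℕ} (hk : 14 ≤ k) (hk' : k = 2 * k') (hm : 3 * k ≤ 2 * m)
    (hab : a + b = k ^ 2) (hb : b = 2 * z * k' ^ 2) (hz : z ≤ 2) :
    Emp (two a b m) (TZ (k * m + (1 + z) * k' - 1 - 1)) := by
  have hkR : (14 : ℝ) ≤ k := by exact_mod_cast hk
  have hk'R : (k : ℝ) = 2 * k' := by exact_mod_cast hk'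
  have hmR : 3 * (k : ℝ) ≤ 2 * m := by exact_mod_cast hm
  have hk'1 : 7 ≤ k' := by omega
  have h0 : 2 ≤ k * m + (1 + z) * k' := by nlinarith
  have hd : ((k * m + (1 + z) * k' - 1 - 1 : ℕ) : ℝ) = k * m + (1 + z) * (k / 2) - 2 := by
    rw [Nat.sub_sub, Nat.cast_sub (by omega)]
    push_cast
    rw [hk'R]
    ring
  have haR : (a : ℝ) = k ^ 2 - b := by
    have : (a : ℝ) + b = k ^ 2 := by exact_mod_cast hab
    linarith
  have hbR : (b : ℝ) = z * k ^ 2 / 2 := by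
    rw [hb, hk'R]
    push_cast
    ring
  obtain ⟨s0, hs0⟩ : ∃ s0 : ℕ, s0 = ⌈(k : ℝ) / 12⌉₊ := ⟨_, rfl⟩
  have h1 : (k : ℝ) / 12 ≤ s0 := by rw [hs0]; exact Nat.le_ceil _
  have h2 : (s0 : ℝ) < k / 12 + 1 := by rw [hs0]; exact Nat.ceil_lt_add_one (by positivity)
  have h3 : 1 ≤ s0 := by
    have : (0 : ℝ) < s0 := by linarith
    have : 0 < s0 := by exact_mod_cast this
    omega
  have h4 : s0 + 1 ≤ k ^ 2 := by
    have h5 : (s0 : ℝ) + 1 ≤ ((k ^ 2 : ℕ) : ℝ) := by push_cast; nlinarith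
    exact_mod_cast h5
  have hσ : ((k ^ 2 - s0 : ℕ) : ℝ) = k ^ 2 - s0 := by
    rw [Nat.cast_sub (by omega)]
    push_cast
    ring
  have h5 : (k : ℝ) / 12 * m ≤ s0 * m := mul_le_mul_of_nonneg_right h1 (Nat.cast_nonneg m)
  -- the last row
  obtain ⟨J, hJ, hz2⟩ : ∃ J : ℕ, ((J = m ∧ z ≤ 1) ∨ (J = m + 1 ∧ z = 2)) ∧ True := by
    rcases Nat.lt_or_ge z 2 with h | h
    · exact ⟨m, Or.inl ⟨rfl, by omega⟩, trivial⟩
    · exact ⟨m + 1, Or.inr ⟨rfl, by omega⟩, trivial⟩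
  have hS : (((∑ i, two a b m i : ℕ) : ℕ) : ℝ) = k ^ 2 * m + z * k ^ 2 / 2 := by
    rw [two_sum]
    push_cast
    rw [haR, hbR]
    ring
  have hz0 : (0 : ℝ) ≤ z := Nat.cast_nonneg z
  refine Emp_core_gen keyE (n := k ^ 2) (by nlinarith) (by rw [two_card, hab]) (J := J) (σ := k ^ 2 - s0)
    (by omega) ?_ ?_ ?_ ?_
  · rw [sqrt_sq_nat, hd, hσ, hS]
    push_cast
    linarith
  · rw [sqrt_sq_nat, hd]
    rcases hJ with ⟨rfl, hz1⟩ | ⟨rfl, rfl⟩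
    · nlinarith
    · push_cast
      linarith
  · rw [sqrt_sq_nat, hd]
    rcases hJ with ⟨rfl, hz1⟩ | ⟨rfl, rfl⟩
    · have : (z : ℝ) ≤ 1 := by exact_mod_cast hz1
      nlinarith
    · push_cast
      linarith
  · rw [sqrt_sq_nat, hd, hσ, hS]
    rcases hJ with ⟨rfl, hz1⟩ | ⟨rfl, rfl⟩
    · rcases Nat.lt_or_ge z 1 with h | h
      · have : z = 0 := by omega
        subst this
        exact pnum0 h1 h2 hmR hkR h5
      · have : z = 1 := by omega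
        subst this
        exact pnum1 h1 h2 hmR hkR h5
    · push_cast
      exact pnum2 h1 h2 hmR hkR h5

end Pool.Agent.TH105.NU
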