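import Pool.Agent.H15.G.R_seed8.TH663.N13.Row
import Pool.Agent.H15.G.R_seed8.TH105.N13.Geo

/-! The row sums next to the top of the big point. -/

set_option autoImplicit false

namespace Pool.Agent.TH105.NU

open Finset Pool.Agent.TH663.N13
open Pool.Agent.TH105.N13 (Pc L1)

/-- truncation height and value of `Pc` -/
theorem Pc_trunc' {beta lam sig : ℝ} {v : ℤ} {k d E j : ℕ} (hlam : lam * k = sig - v) {Z : ℕ}
    (hZ : Z ≤ d / 3 + 1) (hkj : k * j ≤ Z) (hEZ : E ≤ Z)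
    (hlo : ∀ y : ℕ, k * j ≤ y → y < Z → sig * j ≤ L1 d E y)
    (hZ2 : 3 * (d : ℝ) - sig * j < 9 * Z) :
    (Pc beta lam (L1 d E) (d / 3) k v j : ℝ)
      = ∑ y ∈ Ico (k * j) Z, ((hh beta lam v k d E j y : ℤ) : ℝ) := by
  rw [Pc_eq, Icc_eq_Ico', ← sum_Ico_consecutive _ hkj hZ,
    sum_Ico_toNat_zero (f := fun y : ℕ => hh beta lam v k d E j y) (a := Z) (b := d / 3 + 1),
    add_zero]
  · exact sum_Ico_toNat (f := fun y : ℕ => hh beta lam v k d E j y)
      fun y h1 h2 => hh_nonneg hlam (hlo y h1 h2)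
  · intro y hy _
    apply hh_nonpos hlam
    rw [L1_hi (by omega)]
    have h2 : (Z : ℝ) ≤ y := by exact_mod_cast hy
    linarith

theorem S1' {beta lam sig : ℝ} {v : ℤ} {k d E j : ℕ} (hlam : lam * k = sig - v)
    (hjE : k * (j + 1) ≤ E + 1) :
    ∑ y ∈ Ico (k * j) (k * (j + 1)), ((hh beta lam v k d E j y : ℤ) : ℝ)
      = k * (3 * (d : ℝ) - E - 8 * (k * j) - sig * j) + (-8) * (k * (k - 1) / 2)
        + ∑ i ∈ range k, Int.fract (beta + lam * ((k * j + i : ℕ) : ℝ))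
        - ∑ i ∈ range k, Int.fract (beta + lam * (i : ℝ)) := by
  rw [sum_Ico_eq_sum_range, show k * (j + 1) - k * j = k by rw [Nat.mul_add]; omega]
  rw [← sum_lin, ← sum_add_distrib, ← sum_sub_distrib]
  apply sum_congr rfl
  intro i hi
  rw [mem_range] at hi
  rw [hh_real hlam, L1_lo (show k * j + i ≤ E by
    have : k * (j + 1) = k * j + k := by ring
    omega)]
  have h1 : beta + lam * (((k * j + i : ℕ) : ℝ) - (k : ℝ) * j) = beta + lam * (i : ℝ) := by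
    push_cast; ring
  rw [h1]
  push_cast
  ring

theorem S3' {beta lam sig : ℝ} {v : ℤ} {k d E j A G W : ℕ} (hlam : lam * k = sig - v)
    (hEA : E ≤ A) (hW : A = k * j + W) :
    ∑ y ∈ Ico A (A + G), ((hh beta lam v k d E j y : ℤ) : ℝ)
      = G * (3 * (d : ℝ) - 9 * A - sig * j) + (-9) * (G * (G - 1) / 2)
        + ∑ i ∈ range G, Int.fract (beta + lam * ((A + i : ℕ) : ℝ))
        - ∑ i ∈ range G, Int.fract (beta + lam * ((W + i : ℕ) : ℝ)) := by
  rw [sum_Ico_eq_sum_range, Nat.add_sub_cancel_left]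
  rw [← sum_lin, ← sum_add_distrib, ← sum_sub_distrib]
  apply sum_congr rfl
  intro i _
  rw [hh_real hlam, L1_hi (show E ≤ A + i by omega)]
  have h1 : beta + lam * (((A + i : ℕ) : ℝ) - (k : ℝ) * j)
      = beta + lam * ((W + i : ℕ) : ℝ) := by
    have h5 : ((A : ℕ) : ℝ) = ((k * j + W : ℕ) : ℝ) := by rw [← hW]
    push_cast at h5 ⊢
    rw [h5]
    ring
  rw [h1]
  push_cast
  ring

theorem noise_shift {lam η : ℝ} {N0 : ℕ}
    (hnoise : ∀ (β : ℝ) (K : ℕ), K ≤ N0 →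
      |∑ i ∈ range K, (Int.fract (β + lam * i) - 1 / 2)| ≤ η) (beta : ℝ) (a K : ℕ) (hK : K ≤ N0) :
    |∑ i ∈ range K, Int.fract (beta + lam * ((a + i : ℕ) : ℝ)) - K / 2| ≤ η := by
  have h1 := hnoise (beta + lam * a) K hK
  have h2 : ∑ i ∈ range K, (Int.fract (beta + lam * a + lam * i) - 1 / 2)
      = ∑ i ∈ range K, Int.fract (beta + lam * ((a + i : ℕ) : ℝ)) - K / 2 := by
    rw [sum_sub_distrib, sum_const, card_range, nsmul_eq_mul]
    congr 1
    · apply sum_congr rfl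
      intro i _
      congr 1
      push_cast
      ring
    · ring
  rwa [h2] at h1

/-- **the row in which the big point ends**, lower bound: `k (j + 1) - 1 ≤ E ≤ k (j + 1)` -/
theorem rs_low {beta lam sig : ℝ} {v : ℤ} {k d E j N0 : ℕ} {η : ℝ} (hk1 : 1 ≤ k)
    (hlam : lam * k = sig - v) (hsig : 0 ≤ sig) (hjE : k * (j + 1) ≤ E + 1) (hjE' : E ≤ k * (j + 1))
    (h3 : 3 * (d : ℝ) ≤ (9 * k + sig) * (j + 1)) (hZ : 9 * (k : ℝ) * (j + 1) + sig * j ≤ 3 * d)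
    (hN : k ≤ N0) (hN' : sig / 9 + 1 ≤ N0)
    (hnoise : ∀ (β : ℝ) (K : ℕ), K ≤ N0 →
      |∑ i ∈ range K, (Int.fract (β + lam * i) - 1 / 2)| ≤ η) :
    FF sig k d E j - (3 * (d : ℝ) - sig * (j + 1) - 9 * (k * (j + 1) - 1)) *
        (9 - (3 * (d : ℝ) - sig * (j + 1) - 9 * (k * (j + 1) - 1))) / 18 - 4 * η ≤
      (Pc beta lam (L1 d E) (d / 3) k v j : ℝ) - Pc beta lam (L1 d E) (d / 3) k v (j + 1) := by
  have hj0 : (0 : ℝ) ≤ j := Nat.cast_nonneg j
  have hsj : 0 ≤ sig * j := mul_nonneg hsig hj0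
  have hP1 : Pc beta lam (L1 d E) (d / 3) k v (j + 1) = 0 := by
    apply tip_zero hlam
    push_cast
    exact h3
  obtain ⟨Z, hZ1, hZ2⟩ : ∃ Z : ℕ, 9 * (Z : ℝ) ≤ 3 * d - sig * j ∧
      3 * (d : ℝ) - sig * j < 9 * (Z + 1) := by
    refine ⟨⌊(3 * (d : ℝ) - sig * j) / 9⌋₊, ?_, ?_⟩
    · have := Nat.floor_le (show 0 ≤ (3 * (d : ℝ) - sig * j) / 9 by
        have : 0 ≤ 9 * (k : ℝ) * (j + 1) := by positivity
        linarith)
      linarith
    · have := Nat.lt_floor_add_one ((3 * (d : ℝ) - sig * j) / 9)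
      linarith
  have hkZ : k * (j + 1) ≤ Z := by
    have h : ((k * (j + 1) : ℕ) : ℝ) < Z + 1 := by push_cast; linarith
    have h' : k * (j + 1) < Z + 1 := by exact_mod_cast h
    omega
  have hZd : Z ≤ d / 3 := by
    have h1 : 9 * (Z : ℝ) ≤ 3 * d := by linarith
    have h2 : 9 * Z ≤ 3 * d := by exact_mod_cast h1
    omega
  have hkj : k * j ≤ k * (j + 1) := Nat.mul_le_mul_left k (by omega)
  have hP0 := Pc_trunc' (beta := beta) (d := d) (E := E) (j := j) (Z := Z + 1) hlam (by omega) (by omega)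
    (by omega) (fun y _ hy => by
      rcases le_total y E with h | h
      · rw [L1_lo h]
        have h5 : (y : ℝ) ≤ k * (j + 1) := by exact_mod_cast (h.trans hjE')
        have h6 : (E : ℝ) ≤ k * (j + 1) := by exact_mod_cast hjE'
        linarith
      · rw [L1_hi h]
        have : (y : ℝ) ≤ Z := by exact_mod_cast (by omega : y ≤ Z)
        linarith) (by push_cast; exact hZ2)
  obtain ⟨G, hG⟩ : ∃ G, Z + 1 = k * (j + 1) + G := Nat.exists_eq_add_of_le (by omega)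
  have hGr : (Z : ℝ) + 1 = k * (j + 1) + G := by exact_mod_cast hG
  have hGN : G ≤ N0 := by
    have h1 : (G : ℝ) ≤ N0 := by
      have e : (9 * (k : ℝ) + sig) * (j + 1) = 9 * (k * (j + 1)) + sig * j + sig := by ring
      rw [e] at h3
      linarith
    exact_mod_cast h1
  have hn1 := abs_le.mp (noise_shift hnoise beta (k * j) k hN)
  have hn2 := abs_le.mp (noise_shift hnoise beta 0 k hN)
  have hn3 := abs_le.mp (noise_shift hnoise beta (k * (j + 1)) G hGN)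
  have hn4 := abs_le.mp (noise_shift hnoise beta k G hGN)
  simp only [Nat.zero_add] at hn2
  rw [hP1, Nat.cast_zero, hP0, ← sum_Ico_consecutive _ hkj (show k * (j + 1) ≤ Z + 1 by omega), S1' hlam hjE, hG,
    S3' hlam hjE' (W := k) (by ring)]
  obtain ⟨D0, hD0⟩ : ∃ D0 : ℝ, D0 = 3 * d - sig * j - 9 * Z := ⟨_, rfl⟩
  have hq0 : 0 ≤ D0 * (9 - D0) / 18 := by
    have : 0 ≤ D0 * (9 - D0) := mul_nonneg (by rw [hD0]; linarith) (by rw [hD0]; linarith)
    linarith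
  have hid : k * (3 * (d : ℝ) - E - 8 * (k * j) - sig * j) + (-8) * (k * (k - 1) / 2)
      + (G * (3 * (d : ℝ) - 9 * ((k * (j + 1) : ℕ) : ℝ) - sig * j) + (-9) * (G * (G - 1) / 2))
      - FF sig k d E j = D0 * (9 - D0) / 18 - (3 * (d : ℝ) - sig * (j + 1) - 9 * (k * (j + 1) - 1)) *
        (9 - (3 * (d : ℝ) - sig * (j + 1) - 9 * (k * (j + 1) - 1))) / 18 := by
    have hGe : (G : ℝ) = Z + 1 - k * (j + 1) := by linarith
    rw [hD0, hGe]
    unfold FF
    push_cast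
    ring
  linarith [hn1.1, hn1.2, hn2.1, hn2.2, hn3.1, hn3.2, hn4.1, hn4.2]

/-- **row sums** with `k (j + 1) ≤ E + 1` -/
theorem rs' {beta lam sig : ℝ} {v : ℤ} {k d E j N0 : ℕ} {η : ℝ}
    (hlam : lam * k = sig - v) (hsig : 0 ≤ sig) (hjE : k * (j + 1) ≤ E + 1)
    (hE : 9 * (E : ℝ) + sig * (j + 1) ≤ 3 * d) (hkE : 9 * (k : ℝ) * (j + 1) + sig * (j + 1) ≤ 3 * d)
    (hN : k ≤ N0) (hN' : sig / 9 + 1 ≤ N0)
    (hnoise : ∀ (β : ℝ) (K : ℕ), K ≤ N0 →
      |∑ i ∈ range K, (Int.fract (β + lam * i) - 1 / 2)| ≤ η) :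
    |(Pc beta lam (L1 d E) (d / 3) k v j : ℝ) - Pc beta lam (L1 d E) (d / 3) k v (j + 1)
      - FF sig k d E j| ≤ 9 / 8 + 4 * η := by
  have hj0 : (0 : ℝ) ≤ j := Nat.cast_nonneg j
  have hE0 : (0 : ℝ) ≤ E := Nat.cast_nonneg E
  have hsj : 0 ≤ sig * j := mul_nonneg hsig hj0
  have hsj1 : sig * (j + 1) = sig * j + sig := by ring
  obtain ⟨Y, hY1, hY2⟩ : ∃ Y : ℕ, 9 * (Y : ℝ) ≤ 3 * d - sig * (j + 1) ∧
      3 * (d : ℝ) - sig * (j + 1) < 9 * (Y + 1) := by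
    refine ⟨⌊(3 * (d : ℝ) - sig * (j + 1)) / 9⌋₊, ?_, ?_⟩
    · have := Nat.floor_le (show 0 ≤ (3 * (d : ℝ) - sig * (j + 1)) / 9 by linarith)
      linarith
    · have := Nat.lt_floor_add_one ((3 * (d : ℝ) - sig * (j + 1)) / 9)
      linarith
  obtain ⟨Z, hZ1, hZ2⟩ : ∃ Z : ℕ, 9 * (Z : ℝ) ≤ 3 * d - sig * j ∧
      3 * (d : ℝ) - sig * j < 9 * (Z + 1) := by
    refine ⟨⌊(3 * (d : ℝ) - sig * j) / 9⌋₊, ?_, ?_⟩
    · have := Nat.floor_le (show 0 ≤ (3 * (d : ℝ) - sig * j) / 9 by linarith)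
      linarith
    · have := Nat.lt_floor_add_one ((3 * (d : ℝ) - sig * j) / 9)
      linarith
  have hEY : E ≤ Y := by
    have h : (E : ℝ) < Y + 1 := by linarith
    have h' : E < Y + 1 := by exact_mod_cast h
    omega
  have hBE : k * (j + 1) ≤ Y := by
    have h : ((k * (j + 1) : ℕ) : ℝ) < Y + 1 := by push_cast; linarith
    have h' : k * (j + 1) < Y + 1 := by exact_mod_cast h
    omega
  have hYZ : Y ≤ Z := by
    have h : (Y : ℝ) < Z + 1 := by linarith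
    have h' : Y < Z + 1 := by exact_mod_cast h
    omega
  have hZd : Z ≤ d / 3 := by
    have h1 : 9 * (Z : ℝ) ≤ 3 * d := by linarith
    have h2 : 9 * Z ≤ 3 * d := by exact_mod_cast h1
    omega
  have hkj : k * j ≤ k * (j + 1) := Nat.mul_le_mul_left k (by omega)
  obtain ⟨M, hM⟩ : ∃ M, Y + 1 = k * (j + 1) + M := Nat.exists_eq_add_of_le (by omega)
  obtain ⟨G, hG⟩ : ∃ G, Z + 1 = Y + 1 + G := Nat.exists_eq_add_of_le (by omega)
  obtain ⟨W, hW⟩ : ∃ W, Y + 1 = k * j + W := Nat.exists_eq_add_of_le (by omega)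
  have hP0 := Pc_trunc (beta := beta) (E := E) hlam hZd (show k * j ≤ Z + 1 by omega)
    (hEY.trans hYZ) (fun y _ hy => by
      rcases le_total y E with h | h
      · rw [L1_lo h]
        have : (y : ℝ) ≤ E := by exact_mod_cast h
        linarith
      · rw [L1_hi h]
        have : (y : ℝ) ≤ Z := by exact_mod_cast hy
        linarith) hZ2
  have hP1 := Pc_trunc (beta := beta) (E := E) (j := j + 1) hlam (hYZ.trans hZd)
    (show k * (j + 1) ≤ Y + 1 by omega)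
    hEY (fun y _ hy => by
      push_cast
      rcases le_total y E with h | h
      · rw [L1_lo h]
        have : (y : ℝ) ≤ E := by exact_mod_cast h
        linarith
      · rw [L1_hi h]
        have : (y : ℝ) ≤ Y := by exact_mod_cast hy
        linarith) (by push_cast; exact hY2)
  have hsplit : (Pc beta lam (L1 d E) (d / 3) k v j : ℝ) - Pc beta lam (L1 d E) (d / 3) k v (j + 1)
      = ∑ y ∈ Ico (k * j) (k * (j + 1)), ((hh beta lam v k d E j y : ℤ) : ℝ)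
        + ∑ y ∈ Ico (k * (j + 1)) (k * (j + 1) + M), (((hh beta lam v k d E j y : ℤ) : ℝ)
          - ((hh beta lam v k d E (j + 1) y : ℤ) : ℝ))
        + ∑ y ∈ Ico (Y + 1) (Y + 1 + G), ((hh beta lam v k d E j y : ℤ) : ℝ) := by
    rw [hP0, hP1, sum_sub_distrib, ← hG, ← hM,
      ← sum_Ico_consecutive _ hkj (show k * (j + 1) ≤ Z + 1 by omega),
      ← sum_Ico_consecutive _ (show k * (j + 1) ≤ Y + 1 by omega) (show Y + 1 ≤ Z + 1 by omega)]
    ring
  have hGr : (Z : ℝ) = Y + G := by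
    have : Z = Y + G := by omega
    exact_mod_cast this
  have hMr : (M : ℝ) = Y + 1 - k * (j + 1) := by
    have h5 : ((Y + 1 : ℕ) : ℝ) = ((k * (j + 1) + M : ℕ) : ℝ) := by rw [hM]
    push_cast at h5
    linarith
  have hGN : G ≤ N0 := by
    have h1 : (G : ℝ) ≤ N0 := by linarith
    exact_mod_cast h1
  have hn1 := abs_le.mp (noise_shift hnoise beta (k * j) k hN)
  have hn2 := abs_le.mp (noise_shift hnoise beta M k hN)
  have hn3 := abs_le.mp (noise_shift hnoise beta (Y + 1) G hGN)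
  have hn4 := abs_le.mp (noise_shift hnoise beta W G hGN)
  rw [hsplit, S1' hlam hjE, S2 hlam, S3 hlam hEY hW]
  obtain ⟨D0, hD0⟩ : ∃ D0 : ℝ, D0 = 3 * d - sig * j - 9 * Z := ⟨_, rfl⟩
  obtain ⟨D1, hD1⟩ : ∃ D1 : ℝ, D1 = 3 * d - sig * (j + 1) - 9 * Y := ⟨_, rfl⟩
  have hq : ∀ D : ℝ, 0 ≤ D → D < 9 → 0 ≤ D * (9 - D) / 18 ∧ D * (9 - D) / 18 ≤ 9 / 8 := by
    intro D h1 h2
    constructor
    · have : 0 ≤ D * (9 - D) := mul_nonneg h1 (by linarith)
      linarith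
    · nlinarith [sq_nonneg (D - 9 / 2)]
  have hq0 := hq D0 (by rw [hD0]; linarith) (by rw [hD0]; linarith)
  have hq1 := hq D1 (by rw [hD1]; linarith) (by rw [hD1]; linarith)
  have hid : k * (3 * (d : ℝ) - E - 8 * (k * j) - sig * j) + (-8) * (k * (k - 1) / 2)
      + M * sig + (G * (3 * (d : ℝ) - 9 * (Y + 1) - sig * j) + (-9) * (G * (G - 1) / 2))
      - FF sig k d E j = D0 * (9 - D0) / 18 - D1 * (9 - D1) / 18 := by
    rw [hD0, hD1, hGr, hMr]
    unfold FF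
    ring
  clear hP0 hP1 hsplit hD0 hD1 hnoise hq
  rw [abs_le]
  constructor
  · linarith [hn1.1, hn1.2, hn2.1, hn2.2, hn3.1, hn3.2, hn4.1, hn4.2, hq0.1, hq0.2, hq1.1, hq1.2]
  · linarith [hn1.1, hn1.2, hn2.1, hn2.2, hn3.1, hn3.2, hn4.1, hn4.2, hq0.1, hq0.2, hq1.1, hq1.2]

/-- a larger point leaves fewer pairs -/
theorem Pc_mono {beta lam : ℝ} {v : ℤ} {k d E E' j : ℕ} (h : E ≤ E') :
    Pc beta lam (L1 d E') (d / 3) k v j ≤ Pc beta lam (L1 d E) (d / 3) k v j := by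
  rw [Pc_eq, Pc_eq]
  refine sum_le_sum fun y _ => Int.toNat_le_toNat ?_
  unfold hh L1
  have : max ((E : ℤ) - y) 0 ≤ max ((E' : ℤ) - y) 0 := max_le_max (by omega) le_rfl
  omega

end Pool.Agent.TH105.NU
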